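import Mathlib
import Pool.Graph.R_seed8.Results.MP_2ad15a_nt.GrowingDegreeSubgroups
import Pool.Agent.H27.DT.A

/-!
# The elliptic analogue of Schanuel's conjecture at the integers formed by the first `n` digits of almost all real numbers

Let `E` be the elliptic curve `y² = 4 x³ - g₂ x - g₃` with rational `g₂`, `g₃`, let `Λ` be its lattice, `θ_1, …, θ_r` distinct
natural numbers and `t_n ≥ β ^ n`, `β > 1`, ANY sequence of real numbers, for instance `t_n = 10 ^ n`: then `⌊t_n α⌋` is the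
integer formed by the digits of `α` up to the `n`-th digit after the decimal point. For almost all real points
`α = (α_1, …, α_k)` the following is true for ALL large `n` and all elliptic logarithms `l_{ij}` of the points with the
abscissas `⌊t_n α_i⌋ + θ_j`, and for the group `Γ = Λ + ∑ ℤ l_{ij}`: for every `m` and all `p_1, …, p_m` in `Γ` which are
linearly independent over `ℤ` modulo `Λ`, every polynomial relation of degree at most `δ = n ^ c`, over a number field of
degree at most `δ`, between the constants `w_1, …, w_q` and the `4 m` numbers `p_i`, `ζ(p_i)`, `℘(p_i)`, `℘'(p_i)` is an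
identity in the `2 m` numbers `p_i`, `ζ(p_i)`. So there the bound `2 m` of the elliptic analogue of Schanuel's conjecture
holds, in degrees `δ` which grow like a power of the number of digits.

Proof. The starting theorem `GrowingDegreeSubgroups` of this problem (library) bounds the number of the exceptional tuples of
integers. New (helper27, `Pool/Agent/H27/DT/A.lean`): the measure of the `α` with `⌊t_n α⌋` in the exceptional set and the
lemma of Borel and Cantelli, uniformly in the growing degree.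
-/

set_option autoImplicit false

open scoped PeriodPair
open MeasureTheory Filter

namespace Pool.Agent.Results.MP_2ad15a_nt.DigitTuples

open Pool.Agent.Results.MP_2ad15a_nt.GrowingDegreeSubgroups (integers IsLogs InGroup Independent FreeOverPoints)

/-- All independent families of points of the group which is generated by the points with the abscissas `α_i + θ_j` are free
over their points and `w`, for relations of degree `≤ δ` over number fields of degree `≤ δ`. -/
def Good (Λ : PeriodPair) (δ : ℕ) {k r q : ℕ} (θ : Fin r → ℕ) (w : Fin q → ℂ) (α : Fin k → ℂ) : Prop :=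
  ∀ l : Fin k × Fin r → ℂ, IsLogs Λ θ α l →
    ∀ (n : ℕ) (p : Fin n → ℂ), InGroup Λ l p → Independent Λ p → FreeOverPoints Λ δ w p

/-- Let `Λ` be a lattice with rational invariants, `θ_1, …, θ_r` distinct natural numbers and `β > 1`. There is `c > 0` such
that for every sequence `t_n ≥ β ^ n`, all constants `w` and almost every real point `α`: for all large `n` the tuple of the
integers `⌊t_n α_i⌋` is good in the degree `n ^ c`. -/
theorem result (Λ : PeriodPair) (a b : ℚ) (ha : Λ.g₂ = a) (hb : Λ.g₃ = b) (k r q : ℕ) (θ : Fin r → ℕ)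
    (hθ : Function.Injective θ) (β : ℝ) (hβ : 1 < β) :
    ∃ c : ℝ, 0 < c ∧ ∀ t : ℕ → ℝ, (∀ n, β ^ n ≤ t n) → ∀ w : Fin q → ℂ, ∀ᵐ α : Fin k → ℝ, ∀ᶠ n : ℕ in atTop,
      Good Λ ⌊(n : ℝ) ^ c⌋₊ θ w (fun i => ((⌊t n * α i⌋ : ℤ) : ℂ)) := by
  obtain ⟨C, h⟩ := GrowingDegreeSubgroups.result Λ a b ha hb 1 k r q le_rfl θ hθ
  obtain ⟨c, hc⟩ : ∃ c : ℝ, c = 1 / (2 * ((C : ℝ) + 1)) := ⟨_, rfl⟩
  have hC0 : (0 : ℝ) ≤ C := Nat.cast_nonneg C
  have hc0 : 0 < c := by rw [hc]; positivity
  have hcC : c * C ≤ 1 / 2 := by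
    rw [hc, div_mul_eq_mul_div, one_mul, div_le_div_iff₀ (by positivity) (by norm_num)]
    linarith
  refine ⟨c, hc0, fun t ht w => ?_⟩
  have key := Pool.Agent.H27.DT.bc (k := k)
    (fun n => {v : Fin k → ℤ | ¬ Good Λ ⌊(n : ℝ) ^ c⌋₊ θ w (fun i => ((v i : ℤ) : ℂ))}) t β hβ ht ((C : ℝ) * 3 ^ k)
    (1 / 3 ^ C) (by positivity) (by positivity) (fun n hn T hT => ?_)
  · filter_upwards [key] with α hα
    filter_upwards [hα] with n hn
    simpa using hn
  · obtain ⟨δ, hδ⟩ : ∃ δ : ℕ, δ = ⌊(n : ℝ) ^ c⌋₊ := ⟨_, rfl⟩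
    rw [← hδ]
    obtain ⟨hf, hle⟩ := h δ w T hT
    have hT0 : (0 : ℝ) < T := by exact_mod_cast hT
    have hT1 : (1 : ℝ) ≤ T := by exact_mod_cast hT
    have hn1 : (1 : ℝ) ≤ n := by exact_mod_cast hn
    have hn0 : (0 : ℝ) < n := by linarith
    have hsub : (fun (v : Fin k → ℤ) (i : Fin k) => (v i : ℂ)) ''
        {v : Fin k → ℤ | (∀ i, |v i| ≤ (T : ℤ)) ∧ v ∈ {v : Fin k → ℤ | ¬ Good Λ δ θ w fun i => (v i : ℂ)}} ⊆
        {α : Fin k → ℂ | (∀ i, α i ∈ integers 1 T) ∧ ¬ ∀ l : Fin k × Fin r → ℂ, IsLogs Λ θ α l →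
          ∀ (n : ℕ) (p : Fin n → ℂ), InGroup Λ l p → Independent Λ p → FreeOverPoints Λ δ w p} := by
      rintro _ ⟨v, ⟨hv1, hv2⟩, rfl⟩
      exact ⟨fun i => Pool.Agent.H27.DT.int_mem T (v i) (hv1 i), hv2⟩
    have hinj : Function.Injective (fun (v : Fin k → ℤ) (i : Fin k) => (v i : ℂ)) := by
      intro u v huv
      funext i
      exact Int.cast_injective (congrFun huv i)
    have hfin : {α : Fin k → ℂ | (∀ i, α i ∈ integers 1 T) ∧ ¬ ∀ l : Fin k × Fin r → ℂ, IsLogs Λ θ α l →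
          ∀ (n : ℕ) (p : Fin n → ℂ), InGroup Λ l p → Independent Λ p → FreeOverPoints Λ δ w p}.Finite := by
      apply (Set.Finite.pi' fun _ : Fin k => hf).subset
      rintro α ⟨h1, _⟩
      exact h1
    have h2 := Set.ncard_le_ncard hsub hfin
    rw [Set.ncard_image_of_injective _ hinj] at h2
    have h3 : ((integers 1 T).ncard : ℝ) ^ k ≤ (3 * (T : ℝ)) ^ k :=
      pow_le_pow_left₀ (Nat.cast_nonneg _) (Pool.Agent.H27.DT.integers_card T hT) k
    have h4 : ((δ : ℝ) + 2) ^ C ≤ 3 ^ C * √(n : ℝ) := by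
      have e1 : (1 : ℝ) ≤ (n : ℝ) ^ c := Real.one_le_rpow hn1 hc0.le
      have e2 : (δ : ℝ) ≤ (n : ℝ) ^ c := by rw [hδ]; exact Nat.floor_le (by positivity)
      calc ((δ : ℝ) + 2) ^ C ≤ (3 * (n : ℝ) ^ c) ^ C := pow_le_pow_left₀ (by positivity) (by linarith) C
        _ = 3 ^ C * (n : ℝ) ^ (c * C) := by rw [mul_pow, ← Real.rpow_natCast ((n : ℝ) ^ c), ← Real.rpow_mul hn0.le]
        _ ≤ 3 ^ C * (n : ℝ) ^ (1 / 2 : ℝ) := by
            gcongr
        _ = 3 ^ C * √(n : ℝ) := by rw [Real.sqrt_eq_rpow]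
    have h5 : 1 / 3 ^ C / √(n : ℝ) ≤ 1 / ((δ : ℝ) + 2) ^ C := by
      rw [div_div]
      exact one_div_le_one_div_of_le (by positivity) h4
    calc _ ≤ (({α : Fin k → ℂ | (∀ i, α i ∈ integers 1 T) ∧ ¬ ∀ l : Fin k × Fin r → ℂ, IsLogs Λ θ α l →
          ∀ (n : ℕ) (p : Fin n → ℂ), InGroup Λ l p → Independent Λ p → FreeOverPoints Λ δ w p}.ncard : ℕ) : ℝ) := by
            exact_mod_cast h2
      _ ≤ C * (T : ℝ) ^ (-(1 / ((δ : ℝ) + 2) ^ C)) * ((integers 1 T).ncard : ℝ) ^ k := hle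
      _ ≤ C * (T : ℝ) ^ (-(1 / 3 ^ C / √(n : ℝ))) * (3 * (T : ℝ)) ^ k := by
          gcongr
      _ = C * 3 ^ k * (T : ℝ) ^ k * (T : ℝ) ^ (-(1 / 3 ^ C / √(n : ℝ))) := by
          rw [mul_pow]
          ring

end Pool.Agent.Results.MP_2ad15a_nt.DigitTuples
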